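import Pool.Agent.Helper41.LD.Defs

/-!
# Project LD2: nearly optimal discrepancy of the powers, definitions
-/

set_option autoImplicit false

namespace Pool.Agent.Helper41.LD2

open Set MeasureTheory
open Pool.Agent.Helper41.LD (av var ind haar idx)

/-- average of `haar k i (U j)` -/
noncomputable def A (U : ℕ → ℝ → ℝ) (k i j : ℕ) (a ℓ : ℝ) : ℝ := av (fun x => haar k i (U j x)) a ℓ

/-- the martingale -/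
noncomputable def M (U : ℕ → ℝ → ℝ) (k i : ℕ) (a ℓ : ℝ) : ℝ := ∑' j, A U k i j a ℓ

/-- the pending variance -/
noncomputable def W (U : ℕ → ℝ → ℝ) (n r k i : ℕ) (a ℓ : ℝ) : ℝ :=
  r * ∑ j ∈ Finset.Ico (n - r) n, var (fun x => haar k i (U j x)) a ℓ

/-- the potential -/
noncomputable def Pot (U : ℕ → ℝ → ℝ) (n r K : ℕ) (lam a ℓ : ℝ) : ℝ :=
  ∑ p ∈ idx K, Real.cosh (lam * M U p.1 p.2 a ℓ) * (1 + 4 * lam ^ 2 * W U n r p.1 p.2 a ℓ)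

/-- no cell boundary in the images of the window at the times before `n - r` -/
def NB (U : ℕ → ℝ → ℝ) (n r K : ℕ) (a ℓ : ℝ) : Prop :=
  ∀ j : ℕ, j + r < n → ∀ x ∈ Icc a (a + ℓ), ⌊(2 : ℝ) ^ K * U j x⌋ = ⌊(2 : ℝ) ^ K * U j a⌋

/-- `[a, a + ℓ]` is a window of time `n` (the indicators are controlled before time `m`) -/
structure Wd (U : ℕ → ℝ → ℝ) (β : ℝ) (n m : ℕ) (a ℓ : ℝ) : Prop where
  pos : 0 < ℓ
  meas : ∀ j, Measurable (U j)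
  haar_le : ∀ k i j : ℕ, n ≤ j → |∫ x in a..(a + ℓ), haar k i (U j x)| ≤ (1 / 2) ^ k * β⁻¹ ^ (j - n) * ℓ
  ind_le : ∀ k i j : ℕ, n ≤ j → j < m → ∫ x in a..(a + ℓ), ind k i (U j x) ≤ 4 * (1 / 2) ^ k * ℓ

/-- equidistribution of the multiples of `α` on all blocks of at least `Q₀` integers -/
def EqA (α : ℝ) (Q₀ : ℕ) (ε : ℝ) : Prop :=
  ∀ Q : ℕ, Q₀ ≤ Q → ∀ x p q : ℝ, 0 ≤ p → p ≤ q → q ≤ 1 →
    |(((Finset.range Q).filter fun k : ℕ => p ≤ Int.fract (k * α + x) ∧ Int.fract (k * α + x) < q).card : ℝ) -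
      Q * (q - p)| ≤ ε * Q

/-- the powers, from the time `n₀` on -/
noncomputable def pw (A₀ : ℝ) (c : ℕ → ℝ) (n₀ j : ℕ) (x : ℝ) : ℝ := if j < n₀ then 0 else A₀ * x ^ (j + 1) + c j

/-- the speed -/
noncomputable def vp (A₀ : ℝ) (j : ℕ) (x : ℝ) : ℝ := A₀ * (j + 1) * x ^ j

/-- window of time `n` for the powers -/
def PWin (A₀ : ℝ) (n : ℕ) (a ℓ : ℝ) : Prop := 1 ≤ vp A₀ n a * ℓ ∧ vp A₀ n a * ℓ ≤ 2

/-- the parameters of one block, for the powers in `[x₁, x₂]` -/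
structure PPar (A₀ x₁ x₂ : ℝ) (n₀ K n L r Q₀ : ℕ) (ε : ℝ) : Prop where
  hA : 0 < A₀
  h1 : 1 < x₁
  h12 : x₁ ≤ x₂
  hK : 1 ≤ K
  hC : x₁ / (x₁ - 1) ≤ K
  hr : (2 : ℝ) ^ (12 * K) ≤ x₁ ^ r
  hr1 : 1 ≤ r
  hL : 3 * r ≤ L
  hn : n + L + r ≤ 2 ^ (2 * K)
  hn₀ : n₀ ≤ n
  hQ : (Q₀ : ℝ) + 1 ≤ x₁ ^ (L - 2 * r)
  hε0 : 0 ≤ ε
  hε : ε ≤ (1 / 2) ^ (12 * K)
  hlin : 4 * ((n : ℝ) + L + r + 1) ^ 2 * x₂ ^ (L + r) * 2 ^ (16 * K) ≤ A₀ * x₁ ^ n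

/-- arithmetic condition on a window: `|q x^d - p| ≥ exp (-C (d + log q)^3)` for `(d + log q)^3 ≤ c₀ n` -/
def Dio (C c₀ : ℝ) (n : ℕ) (a ℓ : ℝ) : Prop :=
  ∀ x ∈ Icc a (a + ℓ), ∀ d q : ℕ, 1 ≤ d → 1 ≤ q → ((d : ℝ) + Real.log q) ^ 3 ≤ c₀ * n → ∀ p : ℤ,
    Real.exp (-(C * ((d : ℝ) + Real.log q) ^ 3)) ≤ |q * x ^ d - p|

end Pool.Agent.Helper41.LD2
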