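import Pool.Agent.Helper41.LD2.Ev
import Pool.Agent.Helper34.LD2.WA2
import Pool.Agent.Helper88.LD2.WB22
import Pool.Agent.Helper36.LD2.T
import Pool.Agent.Helper9.LD2.S2
import Pool.Agent.Helper89.LD2.Dim2
import Pool.Agent.Helper5.LD2.PA
import Pool.Agent.Helper65.LD2.PC
import Pool.Agent.Helper8.LD2.NB2
import Pool.Agent.Helper27.LD2.DioStep
import Pool.Agent.Helper23.LD2.DS
import Pool.Agent.Helper23.LD2.EQ
import Pool.Agent.Helper65.LD.F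

/-!
# Project LD2: the main theorem for the powers
-/

set_option autoImplicit false

namespace Pool.Agent.Helper41.LD2

open Set Filter Topology MeasureTheory
open Pool.Agent.Helper41.LD (haar idx final_disc Kk Kk_mono Kk_succ Kk_ge Kk_tendsto nk nk_succ nk_mono nk_ge ev_pow ev_real
  pow_eq_exp ev_ratio DiscLe DiscLe.mono)
open Pool.Agent.Helper65.LD.F (disc_of_haar)
open Pool.Agent.Helper34.LD2 (M_le sum_sub_M)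
open Pool.Agent.Helper88.LD2 (W_nonneg W_le)
open Pool.Agent.Helper36.LD2 (trans)
open Pool.Agent.Helper9.LD2 (step)
open Pool.Agent.Helper89.LD2 (dim_var)
open Pool.Agent.Helper5.LD2 (pw_Wd pw_children)
open Pool.Agent.Helper65.LD2 (pair_corr_pw)
open Pool.Agent.Helper8.LD2 (nb_count_pw)
open Pool.Agent.Helper27.LD2 (dio_step)
open Pool.Agent.Helper23.LD2 (dio_start eq_of_dio)

/-- the parameter `λ` -/
noncomputable def lamK (K : ℕ) : ℝ := 1 / (8192 * K * ((K ^ 4 : ℕ) : ℝ) ^ 2)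

theorem lamK_pos {K : ℕ} (hK : 1 ≤ K) : 0 < lamK K := by
  unfold lamK
  have : (0 : ℝ) < K := by exact_mod_cast hK
  have : (0 : ℝ) < ((K ^ 4 : ℕ) : ℝ) := by exact_mod_cast Nat.pow_pos hK
  positivity

theorem lamK_anti {K K' : ℕ} (hK : 1 ≤ K) (h : K ≤ K') : lamK K' ≤ lamK K := by
  unfold lamK
  have h0 : (0 : ℝ) < K := by exact_mod_cast hK
  have h1 : (0 : ℝ) < ((K ^ 4 : ℕ) : ℝ) := by exact_mod_cast Nat.pow_pos hK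
  have h2 : (K : ℝ) ≤ K' := by exact_mod_cast h
  have h3 : ((K ^ 4 : ℕ) : ℝ) ≤ ((K' ^ 4 : ℕ) : ℝ) := by exact_mod_cast Nat.pow_le_pow_left h _
  refine one_div_le_one_div_of_le (by positivity) ?_
  gcongr

theorem lamK_mul_r {K r : ℕ} (hK : 1 ≤ K) (hr : r ≤ K ^ 4) : lamK K * r ≤ 1 / 8192 := by
  have hKr : (1 : ℝ) ≤ K := by exact_mod_cast hK
  have hLr : (1 : ℝ) ≤ ((K ^ 4 : ℕ) : ℝ) := by exact_mod_cast Nat.one_le_pow _ _ hK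
  have h12 : (r : ℝ) ≤ ((K ^ 4 : ℕ) : ℝ) := by exact_mod_cast hr
  calc lamK K * r ≤ lamK K * ((K ^ 4 : ℕ) : ℝ) := mul_le_mul_of_nonneg_left h12 (lamK_pos hK).le
    _ ≤ 1 / 8192 := by
      unfold lamK
      rw [div_mul_eq_mul_div, one_mul, div_le_div_iff₀ (by positivity) (by norm_num)]
      nlinarith [mul_nonneg (sub_nonneg.2 hKr) (sq_nonneg ((K ^ 4 : ℕ) : ℝ)), mul_nonneg (sub_nonneg.2 hLr) (by linarith : (0:ℝ) ≤ ((K ^ 4 : ℕ) : ℝ))]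

theorem lamK_W {K r : ℕ} (hK : 1 ≤ K) (hr : r ≤ K ^ 4) : 4 * lamK K ^ 2 * (r : ℝ) ^ 2 ≤ 1 := by
  have h13 := lamK_mul_r hK hr
  have h14 : 0 ≤ lamK K * r := mul_nonneg (lamK_pos hK).le (Nat.cast_nonneg r)
  calc 4 * lamK K ^ 2 * (r : ℝ) ^ 2 = 4 * (lamK K * r) ^ 2 := by ring
    _ ≤ 1 := by nlinarith

variable {U : ℕ → ℝ → ℝ} {β : ℝ}

theorem sum_cosh_le_Pot (n r K : ℕ) (lam a : ℝ) {ℓ : ℝ} (hℓ : 0 < ℓ) :
    ∑ p ∈ idx K, Real.cosh (lam * M U p.1 p.2 a ℓ) ≤ Pot U n r K lam a ℓ := by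
  unfold Pot
  refine Finset.sum_le_sum fun p _ => ?_
  have h1 := Real.one_le_cosh (lam * M U p.1 p.2 a ℓ)
  have h2 : 0 ≤ 4 * lam ^ 2 * W U n r p.1 p.2 a ℓ := by
    have := W_nonneg (U := U) n r p.1 p.2 a hℓ
    positivity
  nlinarith

theorem mem_idx {K k i : ℕ} (hk : k < K) (hi : i < 2 ^ k) : (⟨k, i⟩ : Σ _ : ℕ, ℕ) ∈ idx K := by
  unfold idx
  rw [Finset.mem_sigma]
  exact ⟨Finset.mem_range.2 hk, Finset.mem_range.2 hi⟩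

/-- bound for the martingale on a good window -/
theorem M_of_Pot {n r K : ℕ} {lam a ℓ : ℝ} (hℓ : 0 < ℓ) (hlam : 0 < lam)
    (h : Pot U n r K lam a ℓ ≤ 16 ^ K) {k i : ℕ} (hk : k < K) (hi : i < 2 ^ k) :
    |M U k i a ℓ| ≤ (3 * K + 1) / lam := by
  have h1 : Real.cosh (lam * M U k i a ℓ) ≤ 16 ^ K :=
    (Finset.single_le_sum (f := fun p : (Σ _ : ℕ, ℕ) => Real.cosh (lam * M U p.1 p.2 a ℓ))
      (fun p _ => (Real.cosh_pos _).le) (mem_idx hk hi)).trans ((sum_cosh_le_Pot n r K lam a hℓ).trans h)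
  have h2 : Real.exp |lam * M U k i a ℓ| ≤ 2 * 16 ^ K := by
    rw [← Real.cosh_abs, Real.cosh_eq] at h1
    have := Real.exp_pos (-|lam * M U k i a ℓ|)
    linarith
  have h3 : |lam * M U k i a ℓ| ≤ Real.log (2 * 16 ^ K) := by
    rw [Real.le_log_iff_exp_le (by positivity)]
    exact h2
  have h4 : Real.log (2 * 16 ^ K) ≤ 3 * K + 1 := by
    have e : (2 : ℝ) * 16 ^ K = 2 ^ (4 * K + 1) := by
      rw [pow_succ, pow_mul]; norm_num; ring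
    rw [e, Real.log_pow]
    have h5 := Real.log_two_lt_d9
    have h6 : (0 : ℝ) ≤ K := Nat.cast_nonneg K
    push_cast
    nlinarith
  rw [abs_mul, abs_of_pos hlam] at h3
  rw [le_div_iff₀ hlam, mul_comm]
  linarith

/-- the discrepancy on a window with a small potential -/
theorem good_disc (hβ : 1 < β) {n m r K : ℕ} {a ℓ : ℝ} (hw : Wd U β n m a ℓ) (hK : 1 ≤ K)
    (hC : β / (β - 1) ≤ K) (hr : r ≤ K ^ 4) (hn : n ≤ 2 ^ (K + 1) * K ^ 4)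
    (hNB : NB U n r K a ℓ) (hPot : Pot U n r K (lamK K) a ℓ ≤ 16 ^ K) {x : ℝ} (hx : x ∈ Icc a (a + ℓ)) :
    DiscLe (fun j => U j x) n (140000 * (K : ℝ) ^ 11) := by
  have hKr : (1 : ℝ) ≤ K := by exact_mod_cast hK
  have hlam := lamK_pos hK
  set E : ℝ := (3 * K + 1) / lamK K + 2 * r + β / (β - 1) with hE
  have hθ1 : 0 ≤ β / (β - 1) := div_nonneg (by linarith) (by linarith)
  have hE0 : 0 ≤ E := by positivity
  have h1 : ∀ k < K, ∀ i < 2 ^ k, |∑ j ∈ Finset.range n, haar k i (U j x)| ≤ E := by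
    intro k hk i hi
    have h2 := sum_sub_M hβ hw hNB hk i hx
    have h3 := M_of_Pot hw.pos hlam hPot hk hi
    have h4 : |∑ j ∈ Finset.range n, haar k i (U j x)| ≤ |∑ j ∈ Finset.range n, haar k i (U j x) - M U k i a ℓ| + |M U k i a ℓ| := by
      have := abs_add_le (∑ j ∈ Finset.range n, haar k i (U j x) - M U k i a ℓ) (M U k i a ℓ)
      rwa [sub_add_cancel] at this
    rw [hE]
    linarith
  refine (disc_of_haar (fun j => U j x) n K hE0 h1).mono ?_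
  -- the size of the bound
  have hp : ∀ {e e' : ℕ}, e ≤ e' → (K : ℝ) ^ e ≤ (K : ℝ) ^ e' := fun h => pow_le_pow_right₀ hKr h
  have i1 : 1 / lamK K = 8192 * (K : ℝ) ^ 9 := by
    unfold lamK
    rw [one_div_one_div]
    push_cast
    ring
  have i2 : (3 * (K : ℝ) + 1) / lamK K ≤ 32768 * (K : ℝ) ^ 10 := by
    rw [div_eq_mul_one_div, i1]
    calc (3 * (K : ℝ) + 1) * (8192 * (K : ℝ) ^ 9) ≤ (4 * K) * (8192 * (K : ℝ) ^ 9) := by gcongr; linarith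
      _ = 32768 * (K : ℝ) ^ 10 := by ring
  have i3 : (2 : ℝ) * r ≤ 2 * (K : ℝ) ^ 10 := by
    have : (r : ℝ) ≤ (K : ℝ) ^ 4 := by exact_mod_cast hr
    have := hp (show 4 ≤ 10 by omega)
    linarith
  have i4 : β / (β - 1) ≤ (K : ℝ) ^ 10 := by
    have := hp (show 1 ≤ 10 by omega)
    rw [pow_one] at this
    linarith
  have i5 : E ≤ 32771 * (K : ℝ) ^ 10 := by rw [hE]; linarith
  have i6 : 2 * ((K : ℝ) + 1) * E ≤ 131084 * (K : ℝ) ^ 11 := by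
    calc 2 * ((K : ℝ) + 1) * E ≤ 4 * K * (32771 * (K : ℝ) ^ 10) := by
          refine mul_le_mul (by linarith) i5 hE0 (by positivity)
      _ = 131084 * (K : ℝ) ^ 11 := by ring
  have i7 : 2 * ((n : ℝ) * (1 / 2) ^ K) ≤ 4 * (K : ℝ) ^ 11 := by
    have h5 : (n : ℝ) ≤ 2 ^ (K + 1) * (K : ℝ) ^ 4 := by exact_mod_cast hn
    calc 2 * ((n : ℝ) * (1 / 2) ^ K) ≤ 2 * ((2 ^ (K + 1) * (K : ℝ) ^ 4) * (1 / 2) ^ K) := by gcongr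
      _ = 4 * (K : ℝ) ^ 4 * (2 ^ K * (1 / 2) ^ K) := by rw [pow_succ]; ring
      _ = 4 * (K : ℝ) ^ 4 := by rw [← mul_pow]; norm_num
      _ ≤ _ := by
        have := hp (show 4 ≤ 11 by omega)
        linarith
  have i8 : 0 ≤ (K : ℝ) ^ 11 := by positivity
  linarith

/-- finitely many terms change the discrepancy by a constant -/
theorem disc_change {t t' : ℕ → ℝ} {n n₀ : ℕ} {E : ℝ} (h : DiscLe t n E) (ht : ∀ j, n₀ ≤ j → t' j = t j) :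
    DiscLe t' n (E + n₀) := by
  classical
  intro α γ h0 h1 h2
  have h3 := h α γ h0 h1 h2
  have key : ∀ s s' : ℕ → ℝ, (∀ j, n₀ ≤ j → s' j = s j) →
      (((Finset.range n).filter fun j : ℕ => α ≤ Int.fract (s' j) ∧ Int.fract (s' j) < γ).card : ℝ) ≤
        (((Finset.range n).filter fun j : ℕ => α ≤ Int.fract (s j) ∧ Int.fract (s j) < γ).card : ℝ) + n₀ := by
    intro s s' hs
    have h4 : ((Finset.range n).filter fun j : ℕ => α ≤ Int.fract (s' j) ∧ Int.fract (s' j) < γ) ⊆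
        ((Finset.range n).filter fun j : ℕ => α ≤ Int.fract (s j) ∧ Int.fract (s j) < γ) ∪ Finset.range n₀ := by
      intro j hj
      rw [Finset.mem_union, Finset.mem_filter]
      rw [Finset.mem_filter] at hj
      rcases lt_or_ge j n₀ with h5 | h5
      · exact Or.inr (Finset.mem_range.2 h5)
      · rw [hs j h5] at hj
        exact Or.inl hj
    have h5 := (Finset.card_le_card h4).trans (Finset.card_union_le _ _)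
    rw [Finset.card_range] at h5
    exact_mod_cast h5
  have h4 := key t t' ht
  have h5 := key t' t fun j hj => (ht j hj).symm
  rw [abs_le] at h3 ⊢
  constructor
  · linarith [h3.1]
  · linarith [h3.2]

theorem card_idx_le (K : ℕ) : (idx K).card ≤ 2 ^ K := by
  unfold idx
  rw [Finset.card_sigma]
  simp only [Finset.card_range]
  have : ∑ k ∈ Finset.range K, 2 ^ k < 2 ^ K := by
    have := Nat.geomSum_eq (le_refl 2) K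
    rw [this]
    have h1 : 1 ≤ 2 ^ K := Nat.one_le_two_pow
    simp
  exact this.le

/-- the potential at the start -/
theorem pot_start (hβ : 1 < β) {r n m K : ℕ} {a ℓ : ℝ} (hw : Wd U β n m a ℓ) (hK : 2 ≤ K)
    (hC : β / (β - 1) ≤ K) (hn : n ≤ K ^ 6) (hr2 : r ≤ K ^ 4) : Pot U n r K (lamK K) a ℓ ≤ 16 ^ K := by
  have hK1 : 1 ≤ K := by omega
  have hKr : (1 : ℝ) ≤ K := by exact_mod_cast hK1
  have hlam := lamK_pos hK1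
  have hlamK : lamK K * (2 * (K : ℝ) ^ 6) ≤ 1 / 2 := by
    unfold lamK
    push_cast
    rw [div_mul_eq_mul_div, one_mul, div_le_iff₀ (by positivity)]
    have h3 : (K : ℝ) ^ 6 ≤ (K : ℝ) ^ 9 := pow_le_pow_right₀ hKr (by omega)
    have h4 : 1 / 2 * (8192 * (K : ℝ) * ((K : ℝ) ^ 4) ^ 2) = 4096 * (K : ℝ) ^ 9 := by ring
    rw [h4]
    have h5 : 0 ≤ (K : ℝ) ^ 9 := by positivity
    linarith
  have h1 : ∀ p ∈ idx K, Real.cosh (lamK K * M U p.1 p.2 a ℓ) * (1 + 4 * lamK K ^ 2 * W U n r p.1 p.2 a ℓ) ≤ 4 := by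
    intro p _
    have h2 := M_le hβ hw p.1 p.2
    have h3 : |M U p.1 p.2 a ℓ| ≤ 2 * (K : ℝ) ^ 6 := by
      have e1 : (n : ℝ) ≤ (K : ℝ) ^ 6 := by exact_mod_cast hn
      have e2 : (K : ℝ) ≤ (K : ℝ) ^ 6 := by
        calc (K : ℝ) = (K : ℝ) ^ 1 := (pow_one _).symm
          _ ≤ (K : ℝ) ^ 6 := pow_le_pow_right₀ hKr (by norm_num)
      linarith
    have h4 : |lamK K * M U p.1 p.2 a ℓ| ≤ 1 / 2 := by
      rw [abs_mul, abs_of_pos hlam]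
      exact (mul_le_mul_of_nonneg_left h3 hlam.le).trans hlamK
    have h5 : Real.cosh (lamK K * M U p.1 p.2 a ℓ) ≤ 2 := by
      rw [← Real.cosh_abs]
      have h6 := Real.cosh_le_exp_half_sq |lamK K * M U p.1 p.2 a ℓ|
      have h7 : |lamK K * M U p.1 p.2 a ℓ| ^ 2 / 2 ≤ 1 / 2 := by
        have := abs_nonneg (lamK K * M U p.1 p.2 a ℓ)
        nlinarith
      have h8 : Real.exp (1 / 2) ≤ 2 := by
        have h9 : Real.exp (1 / 2) ^ 2 ≤ 2 ^ 2 := by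
          rw [← Real.exp_nat_mul]
          norm_num
          have := Real.exp_one_lt_d9
          linarith
        exact le_of_sq_le_sq h9 (by norm_num)
      exact h6.trans ((Real.exp_le_exp.2 h7).trans h8)
    have h10 := W_le hw.meas n r p.1 p.2 a hw.pos
    have h11 : 4 * lamK K ^ 2 * W U n r p.1 p.2 a ℓ ≤ 1 :=
      (mul_le_mul_of_nonneg_left h10 (by positivity)).trans (lamK_W hK1 hr2)
    have h15 : 0 ≤ 4 * lamK K ^ 2 * W U n r p.1 p.2 a ℓ := by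
      have := W_nonneg (U := U) n r p.1 p.2 a hw.pos
      positivity
    have h16 := Real.one_le_cosh (lamK K * M U p.1 p.2 a ℓ)
    nlinarith
  calc Pot U n r K (lamK K) a ℓ ≤ ∑ _p ∈ idx K, (4 : ℝ) := Finset.sum_le_sum h1
    _ = (idx K).card * 4 := by rw [Finset.sum_const, nsmul_eq_mul]
    _ ≤ 2 ^ K * 4 := by
      have : ((idx K).card : ℝ) ≤ 2 ^ K := by exact_mod_cast card_idx_le K
      linarith
    _ ≤ 2 ^ K * 8 ^ K := by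
      have : (4 : ℝ) ≤ 8 ^ K := by
        calc (4 : ℝ) ≤ 8 ^ 1 := by norm_num
          _ ≤ 8 ^ K := pow_le_pow_right₀ (by norm_num) hK1
      exact mul_le_mul_of_nonneg_left this (by positivity)
    _ = 16 ^ K := by rw [← mul_pow]; norm_num

/-! ## Windows of the powers -/

variable {A₀ x₁ x₂ : ℝ} {c : ℕ → ℝ}

theorem vp_ge (hA : 0 < A₀) (h1 : 1 < x₁) (n : ℕ) {a : ℝ} (ha : x₁ ≤ a) : A₀ * x₁ ^ n ≤ vp A₀ n a := by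
  unfold vp
  have h2 : x₁ ^ n ≤ a ^ n := pow_le_pow_left₀ (by linarith) ha n
  have h3 : (1 : ℝ) ≤ (n : ℝ) + 1 := by linarith [(Nat.cast_nonneg n : (0 : ℝ) ≤ n)]
  have h4 : 0 ≤ a ^ n := pow_nonneg (by linarith) n
  calc A₀ * x₁ ^ n ≤ A₀ * a ^ n := mul_le_mul_of_nonneg_left h2 hA.le
    _ = A₀ * 1 * a ^ n := by ring
    _ ≤ A₀ * (n + 1) * a ^ n := by gcongr

theorem pwin_pos (hA : 0 < A₀) (h1 : 1 < x₁) {n : ℕ} {a ℓ : ℝ} (ha : x₁ ≤ a) (hw : PWin A₀ n a ℓ) : 0 < ℓ := by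
  have h2 := vp_ge hA h1 n ha
  have h3 : 0 < A₀ * x₁ ^ n := mul_pos hA (pow_pos (by linarith) n)
  have h4 : 0 < vp A₀ n a := lt_of_lt_of_le h3 h2
  by_contra hcon
  push Not at hcon
  have h5 : vp A₀ n a * ℓ ≤ 0 := mul_nonpos_of_nonneg_of_nonpos h4.le hcon
  linarith [hw.1]

theorem pwin_le (hA : 0 < A₀) (h1 : 1 < x₁) {n : ℕ} {a ℓ : ℝ} (ha : x₁ ≤ a) (hw : PWin A₀ n a ℓ) :
    ℓ ≤ 2 / (A₀ * x₁ ^ n) := by
  have h2 := vp_ge hA h1 n ha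
  have h3 : 0 < A₀ * x₁ ^ n := mul_pos hA (pow_pos (by linarith) n)
  rw [le_div_iff₀ h3, mul_comm]
  exact (mul_le_mul_of_nonneg_right h2 (pwin_pos hA h1 ha hw).le).trans hw.2

/-- a good window -/
structure Good (A₀ x₁ x₂ : ℝ) (c : ℕ → ℝ) (R : ℕ) (C : ℝ) (K₀ k : ℕ) (a ℓ : ℝ) : Prop where
  lo : x₁ ≤ a
  hi : a + ℓ ≤ x₂
  win : PWin A₀ (nk 3 (K₀ ^ 6) K₀ k) a ℓ
  nb : NB (pw A₀ c (K₀ ^ 6)) (nk 3 (K₀ ^ 6) K₀ k) (R * Kk K₀ k) (Kk K₀ k) a ℓ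
  pot : Pot (pw A₀ c (K₀ ^ 6)) (nk 3 (K₀ ^ 6) K₀ k) (R * Kk K₀ k) (Kk K₀ k) (lamK (Kk K₀ k)) a ℓ ≤ 16 ^ Kk K₀ k
  dio : Dio C 1 (nk 3 (K₀ ^ 6) K₀ k) a ℓ

/-- the requirements on the parameters -/
structure Req (A₀ x₁ x₂ : ℝ) (R : ℕ) (C : ℝ) (K₀ : ℕ) : Prop where
  hK₀2 : 2 ≤ K₀
  h6 : K₀ ^ 6 ≤ 2 ^ K₀
  hR1 : 1 ≤ R
  hpar : ∀ K ≥ K₀, ∃ (Q₀ : ℕ) (ε : ℝ), (∀ n : ℕ, K ^ 5 ≤ n → n ≤ 2 ^ (K + 1) * K ^ 4 → K₀ ^ 6 ≤ n → PPar A₀ x₁ x₂ (K₀ ^ 6) K n (K ^ 4) (R * K) Q₀ ε) ∧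
    ∀ n : ℕ, K ^ 4 ≤ n → ∀ a ℓ : ℝ, x₁ ≤ a → 0 < ℓ → Dio C 1 n a ℓ → ∀ i j : ℕ, i < j → j + 1 ≤ 2 ^ (2 * K) → j ≤ i + R * K →
      EqA (((j : ℝ) + 1) / (i + 1) * a ^ (j - i)) Q₀ ε
  hbig : ∀ K ≥ K₀, 8192 * K * K ^ 4 ≤ 2 ^ K
  hsum : ∀ K ≥ K₀, ∀ n : ℕ, n ≤ 2 ^ (K + 1) * K ^ 4 → n + K ^ 4 + R * K + 1 ≤ 2 ^ (2 * K)
  hnk : ∀ k, Kk K₀ k ^ 5 ≤ nk 3 (K₀ ^ 6) K₀ k
  hdio : ∀ n m : ℕ, K₀ ≤ n → n ≤ m → m ≤ 2 * n → ∀ a ℓ : ℝ, x₁ ≤ a → a + ℓ ≤ x₂ → PWin A₀ n a ℓ → Dio C 1 n a ℓ → ∀ B : ℕ, 1 ≤ B →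
      (∀ b < B, PWin A₀ m (a + b * (ℓ / B)) (ℓ / B)) →
      ∃ S : Finset ℕ, S.card ≤ 8 ∧ ∀ b < B, b ∉ S → Dio C 1 m (a + b * (ℓ / B)) (ℓ / B)

theorem Req.ppar {R : ℕ} {C : ℝ} {K₀ : ℕ} (H : Req A₀ x₁ x₂ R C K₀) (k : ℕ) : ∃ (Q₀ : ℕ) (ε : ℝ),
    PPar A₀ x₁ x₂ (K₀ ^ 6) (Kk K₀ k) (nk 3 (K₀ ^ 6) K₀ k) (Kk K₀ k ^ 4) (R * Kk K₀ k) Q₀ ε ∧
    ∀ a ℓ : ℝ, x₁ ≤ a → 0 < ℓ → Dio C 1 (nk 3 (K₀ ^ 6) K₀ k) a ℓ → ∀ i j : ℕ, i < j → j + 1 ≤ 2 ^ (2 * Kk K₀ k) → j ≤ i + R * Kk K₀ k →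
      EqA (((j : ℝ) + 1) / (i + 1) * a ^ (j - i)) Q₀ ε := by
  obtain ⟨Q₀, ε, h1, h2⟩ := H.hpar (Kk K₀ k) (Kk_ge K₀ k)
  have h0 := H.hK₀2
  have hK1 : 1 ≤ Kk K₀ k := by have := Kk_ge K₀ k; omega
  have h3 : Kk K₀ k ^ 4 ≤ nk 3 (K₀ ^ 6) K₀ k := (Nat.pow_le_pow_right hK1 (by omega)).trans (H.hnk k)
  exact ⟨Q₀, ε, h1 _ (H.hnk k) (nk_le' (by omega) H.h6 k) (by unfold nk; omega), h2 _ h3⟩

/-- the number of children -/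
noncomputable def Bk (A₀ : ℝ) (K₀ k : ℕ) (a ℓ : ℝ) : ℕ := ⌊vp A₀ (nk 3 (K₀ ^ 6) K₀ (k + 1)) a * ℓ⌋₊

theorem Bk_ge {R : ℕ} {C : ℝ} {K₀ : ℕ} (H : Req A₀ x₁ x₂ R C K₀) (k : ℕ) {a ℓ : ℝ} (h : Good A₀ x₁ x₂ c R C K₀ k a ℓ) :
    x₁ ^ (Kk K₀ k ^ 4) / 2 ≤ (Bk A₀ K₀ k a ℓ : ℝ) ∧ (2 : ℝ) ^ (36 * Kk K₀ k) / 2 ≤ (Bk A₀ K₀ k a ℓ : ℝ) ∧ 1 ≤ Bk A₀ K₀ k a ℓ := by
  obtain ⟨Q₀, ε, P, -⟩ := H.ppar k
  have h1 := (pw_children P h.lo h.hi h.win).1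
  rw [← nk_succ 3 (K₀ ^ 6) K₀ k] at h1
  change x₁ ^ (Kk K₀ k ^ 4) / 2 ≤ (Bk A₀ K₀ k a ℓ : ℝ) at h1
  have hx := P.h1
  have h2 : (2 : ℝ) ^ (36 * Kk K₀ k) ≤ x₁ ^ (Kk K₀ k ^ 4) := by
    calc (2 : ℝ) ^ (36 * Kk K₀ k) = ((2 : ℝ) ^ (12 * Kk K₀ k)) ^ 3 := by rw [← pow_mul]; congr 1; ring
      _ ≤ (x₁ ^ (R * Kk K₀ k)) ^ 3 := pow_le_pow_left₀ (by positivity) P.hr 3
      _ = x₁ ^ (3 * (R * Kk K₀ k)) := by rw [← pow_mul]; congr 1; ring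
      _ ≤ _ := pow_le_pow_right₀ hx.le P.hL
  have h3 : (2 : ℝ) ^ (36 * Kk K₀ k) / 2 ≤ (Bk A₀ K₀ k a ℓ : ℝ) := by linarith
  refine ⟨h1, h3, ?_⟩
  have h4 : (2 : ℝ) ^ 1 ≤ (2 : ℝ) ^ (36 * Kk K₀ k) := pow_le_pow_right₀ (by norm_num) (by have := P.hK; omega)
  have h5 : (1 : ℝ) ≤ (Bk A₀ K₀ k a ℓ : ℝ) := by linarith
  exact_mod_cast h5

/-- the children of a good window are windows in `[x₁, x₂]` -/
theorem child_win {R : ℕ} {C : ℝ} {K₀ : ℕ} (H : Req A₀ x₁ x₂ R C K₀) (k : ℕ) {a ℓ : ℝ} (h : Good A₀ x₁ x₂ c R C K₀ k a ℓ) :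
    ∀ b < Bk A₀ K₀ k a ℓ, PWin A₀ (nk 3 (K₀ ^ 6) K₀ (k + 1)) (a + b * (ℓ / Bk A₀ K₀ k a ℓ)) (ℓ / Bk A₀ K₀ k a ℓ) ∧
      x₁ ≤ a + b * (ℓ / Bk A₀ K₀ k a ℓ) ∧ a + b * (ℓ / Bk A₀ K₀ k a ℓ) + ℓ / Bk A₀ K₀ k a ℓ ≤ x₂ := by
  obtain ⟨Q₀, ε, P, -⟩ := H.ppar k
  have h1 := (pw_children P h.lo h.hi h.win).2.2
  rw [← nk_succ 3 (K₀ ^ 6) K₀ k] at h1
  exact h1

theorem child_Wd {R : ℕ} {C : ℝ} {K₀ : ℕ} (H : Req A₀ x₁ x₂ R C K₀) (k : ℕ) {a ℓ : ℝ} (h : Good A₀ x₁ x₂ c R C K₀ k a ℓ) :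
    ∀ b < Bk A₀ K₀ k a ℓ, Wd (pw A₀ c (K₀ ^ 6)) x₁ (nk 3 (K₀ ^ 6) K₀ (k + 1)) (nk 3 (K₀ ^ 6) K₀ (k + 1) + Kk K₀ (k + 1) ^ 4)
      (a + b * (ℓ / Bk A₀ K₀ k a ℓ)) (ℓ / Bk A₀ K₀ k a ℓ) := by
  intro b hb
  obtain ⟨h1, h2, h3⟩ := child_win H k h b hb
  obtain ⟨Q₀, ε, P, -⟩ := H.ppar (k + 1)
  exact pw_Wd P h2 h3 h1

/-- the arithmetic bound for the transitions -/
theorem trans_aux {n n' K : ℕ} (hK : 1 ≤ K) {β : ℝ} (hC : β / (β - 1) ≤ K) (hn : n ≤ 2 ^ (K + 1) * K ^ 4) (hn' : n' = n + K ^ 4) :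
    lamK K * (n' * (1 / 2) ^ K + 2 * (β / (β - 1))) ≤ 1 / 2 := by
  have hKr : (1 : ℝ) ≤ K := by exact_mod_cast hK
  have hLr : (1 : ℝ) ≤ ((K ^ 4 : ℕ) : ℝ) := by exact_mod_cast Nat.one_le_pow _ _ hK
  have hKL : (K : ℝ) ≤ ((K ^ 4 : ℕ) : ℝ) := by exact_mod_cast Nat.le_self_pow (by omega) K
  have e1 : (n' : ℝ) * (1 / 2) ^ K ≤ 3 * ((K ^ 4 : ℕ) : ℝ) := by
    have e2 : (n' : ℝ) ≤ 2 ^ (K + 1) * ((K ^ 4 : ℕ) : ℝ) + ((K ^ 4 : ℕ) : ℝ) := by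
      rw [hn']
      have : (n : ℝ) ≤ 2 ^ (K + 1) * ((K ^ 4 : ℕ) : ℝ) := by exact_mod_cast hn
      push_cast at this ⊢
      linarith
    have e3 : (1 / 2 : ℝ) ^ K ≤ 1 := pow_le_one₀ (by norm_num) (by norm_num)
    calc (n' : ℝ) * (1 / 2) ^ K
        ≤ (2 ^ (K + 1) * ((K ^ 4 : ℕ) : ℝ) + ((K ^ 4 : ℕ) : ℝ)) * (1 / 2) ^ K :=
          mul_le_mul_of_nonneg_right e2 (by positivity)
      _ = 2 * ((K ^ 4 : ℕ) : ℝ) * (2 ^ K * (1 / 2) ^ K) + ((K ^ 4 : ℕ) : ℝ) * (1 / 2) ^ K := by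
          rw [pow_succ]; ring
      _ ≤ 2 * ((K ^ 4 : ℕ) : ℝ) * 1 + ((K ^ 4 : ℕ) : ℝ) * 1 := by
          have e4 : (2 : ℝ) ^ K * (1 / 2) ^ K = 1 := by rw [← mul_pow]; norm_num
          rw [e4]
          have := mul_le_mul_of_nonneg_left e3 (show 0 ≤ ((K ^ 4 : ℕ) : ℝ) by positivity)
          linarith
      _ = _ := by ring
  have e5 : (n' : ℝ) * (1 / 2) ^ K + 2 * (β / (β - 1)) ≤ 5 * ((K ^ 4 : ℕ) : ℝ) := by linarith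
  refine (mul_le_mul_of_nonneg_left e5 (lamK_pos hK).le).trans ?_
  unfold lamK
  rw [div_mul_eq_mul_div, one_mul, div_le_iff₀ (by positivity)]
  nlinarith [mul_nonneg (sub_nonneg.2 hKr) (sq_nonneg ((K ^ 4 : ℕ) : ℝ)), mul_nonneg (sub_nonneg.2 hLr) (by linarith : (0:ℝ) ≤ ((K ^ 4 : ℕ) : ℝ))]

open Classical in
/-- one block -/
theorem good_step {R : ℕ} {C : ℝ} {K₀ : ℕ} (H : Req A₀ x₁ x₂ R C K₀) (k : ℕ) {a ℓ : ℝ} (h : Good A₀ x₁ x₂ c R C K₀ k a ℓ) :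
    (1 / 2 : ℝ) ^ (3 * Kk K₀ k) * Bk A₀ K₀ k a ℓ ≤
      (((Finset.range (Bk A₀ K₀ k a ℓ)).filter fun b : ℕ =>
        Good A₀ x₁ x₂ c R C K₀ (k + 1) (a + b * (ℓ / Bk A₀ K₀ k a ℓ)) (ℓ / Bk A₀ K₀ k a ℓ)).card : ℝ) := by
  obtain ⟨Q₀, ε, P, hEq⟩ := H.ppar k
  have hcw := child_win H k h
  have hcW := child_Wd H k h
  obtain ⟨hB1, hB2, hB3⟩ := Bk_ge H k h
  have hnn : nk 3 (K₀ ^ 6) K₀ (k + 1) = nk 3 (K₀ ^ 6) K₀ k + Kk K₀ k ^ 4 := nk_succ 3 (K₀ ^ 6) K₀ k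
  have hK₀2 := H.hK₀2
  have hnle : nk 3 (K₀ ^ 6) K₀ k ≤ 2 ^ (Kk K₀ k + 1) * Kk K₀ k ^ 4 := nk_le' (by omega) H.h6 k
  have hKK₀ : K₀ ≤ Kk K₀ k := Kk_ge K₀ k
  have hbig := H.hbig _ hKK₀
  have hsum := H.hsum _ hKK₀ _ hnle
  have hKs := Kk_succ K₀ k
  have hnk5 := H.hnk k
  have hBdef : Bk A₀ K₀ k a ℓ = ⌊vp A₀ (nk 3 (K₀ ^ 6) K₀ k + Kk K₀ k ^ 4) a * ℓ⌋₊ := by
    unfold Bk; rw [hnn]
  have hlo := h.lo
  have hhi := h.hi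
  have hwin := h.win
  have hnb := h.nb
  have hpot := h.pot
  have hdio := h.dio
  set n := nk 3 (K₀ ^ 6) K₀ k with hn
  set n' := nk 3 (K₀ ^ 6) K₀ (k + 1) with hn'
  set K := Kk K₀ k with hK
  set K' := Kk K₀ (k + 1) with hK'
  set B := Bk A₀ K₀ k a ℓ with hB
  have hK2 : 2 ≤ K := by omega
  have hK1 : 1 ≤ K := by omega
  have hK'le : K' ≤ K + 1 := by omega
  have hKK' : K ≤ K' := by omega
  have hℓ : 0 < ℓ := pwin_pos P.hA P.h1 hlo hwin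
  have hBpos : (0 : ℝ) < B := by exact_mod_cast hB3
  have hWd : Wd (pw A₀ c (K₀ ^ 6)) x₁ n (n + K ^ 4) a ℓ := pw_Wd P hlo hhi hwin
  -- the three conditions
  have hEA : ∀ i j : ℕ, n + K ^ 4 ≤ i + 2 * (R * K) → i < j → j ≤ n + K ^ 4 + R * K → j ≤ i + R * K →
      EqA (((j : ℝ) + 1) / (i + 1) * a ^ (j - i)) Q₀ ε := by
    intro i j _ h2 h3 h4
    exact hEq a ℓ hlo hℓ hdio i j h2 (by omega) h4
  have hKL : K ≤ K ^ 4 := Nat.le_self_pow (by omega) K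
  have hS2 := step (β := x₁) (U := pw A₀ c (K₀ ^ 6)) P.h1 hK2 P.hC hKL P.hr1 P.hL hbig hWd le_rfl hB3
    (m' := n' + K' ^ 4) (by rw [← hnn]; exact hcW)
    (fun k hk i hi k' hk' i' hi' => pair_corr_pw P hlo hhi hwin hBdef hEA hk hi hk' hi') hnb hpot
  have hN2 := nb_count_pw (c := c) P hlo hhi hwin hBdef (r' := R * K') (K' := K') (Nat.mul_le_mul_left R hKK') hK'le
  rw [← hnn] at hS2 hN2
  have hLn : K ^ 4 ≤ n := (Nat.pow_le_pow_right hK1 (by omega)).trans hnk5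
  have hK₀n : K₀ ≤ n := by
    calc K₀ ≤ K := hKK₀
      _ ≤ K ^ 4 := hKL
      _ ≤ n := hLn
  obtain ⟨S, hS, hS'⟩ := H.hdio n n' hK₀n (by omega) (by omega) a ℓ hlo hhi hwin hdio B hB3 (fun b hb => (hcw b hb).1)
  -- the good children
  have hsub : ((Finset.range B).filter fun b : ℕ => Pot (pw A₀ c (K₀ ^ 6)) n' (R * K) K (1 / (8192 * K * ((K ^ 4 : ℕ) : ℝ) ^ 2)) (a + b * (ℓ / B)) (ℓ / B) ≤ 16 ^ K) ⊆
      (((Finset.range B).filter fun b : ℕ => Good A₀ x₁ x₂ c R C K₀ (k + 1) (a + b * (ℓ / B)) (ℓ / B)) ∪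
        ((Finset.range B).filter fun b : ℕ => ¬ NB (pw A₀ c (K₀ ^ 6)) n' (R * K') K' (a + b * (ℓ / B)) (ℓ / B))) ∪ S := by
    intro b hb
    rw [Finset.mem_filter] at hb
    obtain ⟨hb1, hb2⟩ := hb
    have hb1' := Finset.mem_range.1 hb1
    rw [Finset.mem_union, Finset.mem_union, Finset.mem_filter, Finset.mem_filter]
    by_cases hbS : b ∈ S
    · exact Or.inr hbS
    by_cases hbN : NB (pw A₀ c (K₀ ^ 6)) n' (R * K') K' (a + b * (ℓ / B)) (ℓ / B)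
    · refine Or.inl (Or.inl ⟨hb1, ?_⟩)
      obtain ⟨w1, w2, w3⟩ := hcw b hb1'
      refine ⟨w2, w3, w1, hbN, ?_, hS' b hb1' hbS⟩
      change Pot (pw A₀ c (K₀ ^ 6)) n' (R * K') K' (lamK K') (a + b * (ℓ / B)) (ℓ / B) ≤ 16 ^ K'
      change Pot (pw A₀ c (K₀ ^ 6)) n' (R * K) K (lamK K) (a + b * (ℓ / B)) (ℓ / B) ≤ 16 ^ K at hb2
      rcases hKs with e | e
      · rw [e]; exact hb2
      · have hRK : R * K' ≤ K' ^ 4 := by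
          obtain ⟨Q₀', ε', P', -⟩ := H.ppar (k + 1)
          have := P'.hL
          rw [← hK'] at this
          omega
        have hfin := trans P.h1 (r' := R * K') hK1 (hcW b hb1') (lamK_pos (K := K + 1) (by omega)).le
          (lamK_anti hK1 (show K ≤ K + 1 by omega)) (trans_aux hK1 P.hC hnle hnn)
          (by
            have := lamK_W (K := K + 1) (r := R * K') (by omega) (by rw [← e]; exact hRK)
            exact this) hb2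
        rw [e] at hfin ⊢
        exact hfin
    · exact Or.inl (Or.inr ⟨hb1, hbN⟩)
  have hcard := (Finset.card_le_card hsub).trans ((Finset.card_union_le _ _).trans (Nat.add_le_add_right (Finset.card_union_le _ _) _))
  have hcard' : (((Finset.range B).filter fun b : ℕ => Pot (pw A₀ c (K₀ ^ 6)) n' (R * K) K (1 / (8192 * K * ((K ^ 4 : ℕ) : ℝ) ^ 2)) (a + b * (ℓ / B)) (ℓ / B) ≤ 16 ^ K).card : ℝ) ≤
      (((Finset.range B).filter fun b : ℕ => Good A₀ x₁ x₂ c R C K₀ (k + 1) (a + b * (ℓ / B)) (ℓ / B)).card : ℝ) +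
        (((Finset.range B).filter fun b : ℕ => ¬ NB (pw A₀ c (K₀ ^ 6)) n' (R * K') K' (a + b * (ℓ / B)) (ℓ / B)).card : ℝ) + (S.card : ℝ) := by
    exact_mod_cast hcard
  have hS8 : (S.card : ℝ) ≤ 8 := by exact_mod_cast hS
  -- arithmetic
  have q1 : (1 / 2 : ℝ) ^ (4 * K + 2) * B ≤ 1 / 2 * ((1 / 2 : ℝ) ^ (3 * K) * B) := by
    have e : (1 / 2 : ℝ) ^ (4 * K + 2) = (1 / 2) ^ (3 * K) * (1 / 2) ^ (K + 2) := by rw [← pow_add]; congr 1; ring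
    have e2 : (1 / 2 : ℝ) ^ (K + 2) ≤ (1 / 2) ^ 1 := pow_le_pow_of_le_one (by norm_num) (by norm_num) (by omega)
    rw [e, pow_one] at *
    have e3 : 0 ≤ (1 / 2 : ℝ) ^ (3 * K) * B := by positivity
    calc (1 / 2 : ℝ) ^ (3 * K) * (1 / 2) ^ (K + 2) * B = (1 / 2 : ℝ) ^ (K + 2) * ((1 / 2 : ℝ) ^ (3 * K) * B) := by ring
      _ ≤ _ := mul_le_mul_of_nonneg_right e2 e3
  have q2 : (8 : ℝ) ≤ 1 / 2 * ((1 / 2 : ℝ) ^ (3 * K) * B) := by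
    have e1 : (1 / 2 : ℝ) ^ (3 * K) * 2 ^ (36 * K) = 2 ^ (33 * K) := by
      rw [show 36 * K = 3 * K + 33 * K by ring, pow_add, ← mul_assoc, ← mul_pow]
      norm_num
    have e2 : (2 : ℝ) ^ 5 ≤ 2 ^ (33 * K) := pow_le_pow_right₀ (by norm_num) (by omega)
    have e3 : (1 / 2 : ℝ) ^ (3 * K) * (2 ^ (36 * K) / 2) ≤ (1 / 2 : ℝ) ^ (3 * K) * B :=
      mul_le_mul_of_nonneg_left hB2 (by positivity)
    have e4 : (1 / 2 : ℝ) ^ (3 * K) * (2 ^ (36 * K) / 2) = 2 ^ (33 * K) / 2 := by rw [mul_div_assoc', e1]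
    rw [e4] at e3
    norm_num at e2
    linarith
  linarith

/-- boundedness for the dimension -/
theorem bounded_ratio {a : ℕ → ℝ} (h0 : ∀ k, 0 ≤ a k) {k₀ : ℕ} (h : ∀ k ≥ k₀, a (k + 1) ≤ a k) : ∃ C : ℝ, ∀ k, a k ≤ C := by
  refine ⟨∑ j ∈ Finset.range (k₀ + 1), a j, fun k => ?_⟩
  have h1 : ∀ j, j ≤ k₀ → a j ≤ ∑ i ∈ Finset.range (k₀ + 1), a i := fun j hj =>
    Finset.single_le_sum (f := a) (fun i _ => h0 i) (Finset.mem_range.2 (by omega))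
  rcases le_total k k₀ with hk | hk
  · exact h1 k hk
  · obtain ⟨m, rfl⟩ := Nat.exists_eq_add_of_le hk
    refine le_trans ?_ (h1 k₀ le_rfl)
    induction m with
    | zero => exact le_rfl
    | succ m ih => exact (h (k₀ + m) (by omega)).trans (ih (by omega))

/-- the requirements hold for large `K₀` -/
theorem exists_req (hA : 0 < A₀) (h1 : 1 < x₁) (h12 : x₁ < x₂) : ∃ (R : ℕ) (C : ℝ), ∀ᶠ K₀ : ℕ in atTop, Req A₀ x₁ x₂ R C K₀ ∧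
    ∃ a ℓ : ℝ, x₁ ≤ a ∧ a + ℓ ≤ x₂ ∧ PWin A₀ (K₀ ^ 6) a ℓ ∧ Dio C 1 (K₀ ^ 6) a ℓ := by
  obtain ⟨R, hR⟩ := pow_unbounded_of_one_lt ((2 : ℝ) ^ 12) h1
  have hR1 : 1 ≤ R := by
    rcases Nat.eq_zero_or_pos R with h0 | h0
    · rw [h0, pow_zero] at hR; norm_num at hR
    · exact h0
  obtain ⟨C₁, hC₁⟩ := dio_step (A₀ := A₀) h1 h12.le hA (c₀ := 1) one_pos
  obtain ⟨C₂, hC₂⟩ := dio_start (A₀ := A₀) h1 h12 hA (c₀ := 1) one_pos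
  set C : ℝ := max 1 (max C₁ C₂) with hC
  have hC0 : 0 < C := lt_of_lt_of_le one_pos (le_max_left _ _)
  obtain ⟨N₁, hN₁⟩ := hC₁ C ((le_max_left _ _).trans (le_max_right _ _))
  obtain ⟨N₂, hN₂⟩ := hC₂ C ((le_max_right _ _).trans (le_max_right _ _))
  obtain ⟨D, hD, hEQ⟩ := eq_of_dio (x₁ := x₁) h1 hC0 (c₀ := 1) one_pos R
  have hev := (ev_ppar (A₀ := A₀) (x₁ := x₁) (x₂ := x₂) hA h1 h12.le hR1 hR.le hD).and (hEQ.and (ev_bigp.and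
    ((ev_pow 4 4).and (eventually_ge_atTop (3 * R)))))
  obtain ⟨K₁, hK₁⟩ := eventually_atTop.1 hev
  refine ⟨R, C, ?_⟩
  filter_upwards [eventually_ge_atTop (K₁ + N₁ + N₂ + 2), ev_six, ev_nk] with K₀ hK₀ h6 hnk
  have hpow : K₀ ≤ K₀ ^ 6 := Nat.le_self_pow (by omega) K₀
  refine ⟨⟨by omega, h6, hR1, ?_, ?_, ?_, hnk, ?_⟩, hN₂ (K₀ ^ 6) (by omega)⟩
  · intro K hK
    obtain ⟨g1, ⟨Q₀, ε, e1, e2, e3, e4⟩, -⟩ := hK₁ K (by omega)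
    exact ⟨Q₀, ε, fun n hn1 hn2 hn3 => g1 Q₀ ε e1 e2 e3 n (K₀ ^ 6) hn1 hn2 hn3, e4⟩
  · intro K hK
    exact ((hK₁ K (by omega)).2.2.1).1
  · intro K hK n hn
    obtain ⟨-, -, ⟨-, g7⟩, g6, g3⟩ := hK₁ K (by omega)
    have g1 : 1 ≤ K := by omega
    have h8 : 4 * K ^ 4 ≤ 2 ^ K := by exact_mod_cast g6
    have hK2 : K * K ≤ K ^ 4 := by
      calc K * K = K ^ 2 := (sq K).symm
        _ ≤ K ^ 4 := Nat.pow_le_pow_right g1 (by omega)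
    have hRK : 3 * (R * K) ≤ K ^ 4 := by
      calc 3 * (R * K) = (3 * R) * K := by ring
        _ ≤ K * K := Nat.mul_le_mul_right K g3
        _ ≤ _ := hK2
    have h9 : 1 ≤ R * K := Nat.mul_pos hR1 g1
    have h10 : (2 : ℕ) ^ (2 * K) = 2 ^ K * 2 ^ K := by rw [two_mul, pow_add]
    have h11 : n ≤ 2 * 2 ^ K * K ^ 4 := by rw [pow_succ] at hn; linarith
    have h12 : 2 ^ 2 ≤ 2 ^ K := Nat.pow_le_pow_right (by norm_num) g7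
    rw [h10]
    have h13 : 2 ^ K * (4 * K ^ 4) ≤ 2 ^ K * 2 ^ K := Nat.mul_le_mul_left _ h8
    have h14 : 2 * K ^ 4 ≤ 2 * 2 ^ K * K ^ 4 := by
      refine Nat.mul_le_mul_right _ ?_
      omega
    have h15 : R * K + 1 ≤ K ^ 4 := by omega
    nlinarith
  · intro n m hn hnm hm a ℓ ha hb hw hd B hB hch
    exact hN₁ n m (by omega) hnm hm a ℓ ha hb hw hd B hB hch

/-- a bound for the lengths -/
noncomputable def sz (A₀ x₁ : ℝ) (K₀ k : ℕ) : ℝ := 2 / (A₀ * x₁ ^ nk 3 (K₀ ^ 6) K₀ k)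

theorem sz_pos (hA : 0 < A₀) (h1 : 1 < x₁) (K₀ k : ℕ) : 0 < sz A₀ x₁ K₀ k :=
  div_pos two_pos (mul_pos hA (pow_pos (by linarith) _))

theorem sz_succ (h1 : 1 < x₁) (K₀ k : ℕ) : sz A₀ x₁ K₀ (k + 1) = sz A₀ x₁ K₀ k / x₁ ^ (Kk K₀ k ^ 4) := by
  unfold sz
  rw [nk_succ, pow_add, div_div, mul_assoc]

theorem sz_tendsto (hA : 0 < A₀) (h1 : 1 < x₁) {K₀ : ℕ} (hK₀ : 1 ≤ K₀) : Tendsto (sz A₀ x₁ K₀) atTop (𝓝 0) := by
  have h2 : Tendsto (nk 3 (K₀ ^ 6) K₀) atTop atTop := tendsto_atTop_mono (nk_ge 3 (K₀ ^ 6) hK₀) tendsto_id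
  have h3 : Tendsto (fun k => A₀ * x₁ ^ nk 3 (K₀ ^ 6) K₀ k) atTop atTop :=
    Tendsto.const_mul_atTop hA ((tendsto_pow_atTop_atTop_of_one_lt h1).comp h2)
  exact Tendsto.div_atTop tendsto_const_nhds h3

theorem mass_bound (hA : 0 < A₀) (h1 : 1 < x₁) {K₀ : ℕ} {s : ℝ} (hs : 0 < s) (hs1 : s < 1) :
    ∃ C : ℝ, ∀ k, (∏ j ∈ Finset.range (k + 1), ((1 / 2 : ℝ) ^ (3 * Kk K₀ j))⁻¹) * sz A₀ x₁ K₀ k ^ (1 - s) ≤ C := by
  obtain ⟨k₀, hk₀⟩ := eventually_atTop.1 ((Kk_tendsto K₀).eventually (ev_ratio (κ := 3) h1 (by norm_num) hs hs1))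
  refine bounded_ratio (k₀ := k₀) (fun k => ?_) fun k hk => ?_
  · exact mul_nonneg (Finset.prod_nonneg fun j _ => by positivity) (Real.rpow_nonneg (sz_pos hA h1 K₀ k).le _)
  · have hx0 : 0 < x₁ := by linarith
    have hpos := sz_pos hA h1 K₀ k
    have hXpos : 0 < x₁ ^ (Kk K₀ k ^ 4) := pow_pos hx0 _
    rw [Finset.prod_range_succ _ (k + 1), sz_succ h1, Real.div_rpow hpos.le hXpos.le]
    have e3 : ((1 / 2 : ℝ) ^ (3 * Kk K₀ (k + 1)))⁻¹ ≤ (x₁ ^ (Kk K₀ k ^ 4)) ^ (1 - s) := by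
      have e4 : ((1 / 2 : ℝ) ^ (3 * Kk K₀ (k + 1)))⁻¹ = 2 ^ (3 * Kk K₀ (k + 1)) := by
        rw [← inv_pow]; norm_num
      rw [e4]
      calc (2 : ℝ) ^ (3 * Kk K₀ (k + 1)) ≤ 2 ^ (3 * (Kk K₀ k + 1)) := by
            refine pow_le_pow_right₀ (by norm_num) ?_
            have := Kk_succ K₀ k
            omega
        _ ≤ (x₁ ^ (Kk K₀ k ^ (3 + 1)) / 2) ^ (1 - s) := hk₀ k hk
        _ ≤ _ := by
          refine Real.rpow_le_rpow (by positivity) ?_ (by linarith)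
          have : (0 : ℝ) < x₁ ^ (Kk K₀ k ^ 4) := hXpos
          show x₁ ^ (Kk K₀ k ^ 4) / 2 ≤ x₁ ^ (Kk K₀ k ^ 4)
          linarith
    have hP0 : 0 ≤ ∏ j ∈ Finset.range (k + 1), ((1 / 2 : ℝ) ^ (3 * Kk K₀ j))⁻¹ := Finset.prod_nonneg fun j _ => by positivity
    have hBs : 0 < (x₁ ^ (Kk K₀ k ^ 4)) ^ (1 - s) := Real.rpow_pos_of_pos hXpos _
    have hℓs : 0 ≤ sz A₀ x₁ K₀ k ^ (1 - s) := Real.rpow_nonneg hpos.le _
    rw [mul_div_assoc', div_le_iff₀ hBs]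
    calc (∏ j ∈ Finset.range (k + 1), ((1 / 2 : ℝ) ^ (3 * Kk K₀ j))⁻¹) * ((1 / 2 : ℝ) ^ (3 * Kk K₀ (k + 1)))⁻¹ * sz A₀ x₁ K₀ k ^ (1 - s)
        ≤ (∏ j ∈ Finset.range (k + 1), ((1 / 2 : ℝ) ^ (3 * Kk K₀ j))⁻¹) * (x₁ ^ (Kk K₀ k ^ 4)) ^ (1 - s) * sz A₀ x₁ K₀ k ^ (1 - s) := by
          gcongr
      _ = _ := by ring

/-- **powers: nearly optimal discrepancy on a set of full dimension** -/
theorem main_ge (hA : 0 < A₀) (c : ℕ → ℝ) {O : Set ℝ} (hO : IsOpen O) (hne : (O ∩ Ioi 1).Nonempty) {s : ℝ} (hs : 0 < s) (hs1 : s < 1) :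
    ENNReal.ofReal s ≤ dimH {x | x ∈ O ∧ ∃ N₀ : ℕ, ∀ N ≥ N₀, DiscLe (fun j => A₀ * x ^ (j + 1) + c j) N (Real.log N ^ 12)} := by
  classical
  obtain ⟨x₀, hx₀, hx1⟩ := hne
  obtain ⟨ρ, hρ, hball⟩ := Metric.isOpen_iff.1 hO x₀ hx₀
  have hsub : Icc x₀ (x₀ + ρ / 2) ⊆ O := by
    intro x hx
    refine hball ?_
    rw [Metric.mem_ball, Real.dist_eq, abs_of_nonneg (by linarith [hx.1])]
    linarith [hx.2]
  have h1 : 1 < x₀ := hx1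
  obtain ⟨R, C, hev⟩ := exists_req (x₂ := x₀ + ρ / 2) hA h1 (by linarith)
  obtain ⟨K₀, H, a₀, ℓ₀, ha₀, hb₀, hwin₀, hdio₀⟩ := hev.exists
  have hK₀2 := H.hK₀2
  have hn0 : nk 3 (K₀ ^ 6) K₀ 0 = K₀ ^ 6 := by unfold nk; simp
  have e1 : Kk K₀ 0 = K₀ := by unfold Kk; simp
  have hstart : Good A₀ x₀ (x₀ + ρ / 2) c R C K₀ 0 a₀ ℓ₀ := by
    obtain ⟨Q₀, ε, P, -⟩ := H.ppar 0
    rw [e1, hn0] at P
    have hWd : Wd (pw A₀ c (K₀ ^ 6)) x₀ (K₀ ^ 6) (K₀ ^ 6 + K₀ ^ 4) a₀ ℓ₀ := pw_Wd P ha₀ hb₀ hwin₀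
    refine ⟨ha₀, hb₀, by rw [hn0]; exact hwin₀, ?_, ?_, by rw [hn0]; exact hdio₀⟩
    · rw [hn0, e1]
      intro j hj x _
      have h2 : j < K₀ ^ 6 := by omega
      unfold pw
      rw [if_pos h2, if_pos h2]
    · rw [hn0, e1]
      refine pot_start P.h1 hWd hK₀2 P.hC le_rfl ?_
      have := P.hL
      omega
  have hdim := dim_var (Bk A₀ K₀) (sz A₀ x₀ K₀) (fun k => (1 / 2 : ℝ) ^ (3 * Kk K₀ k)) (Good A₀ x₀ (x₀ + ρ / 2) c R C K₀) a₀ ℓ₀ hstart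
    (fun k a ℓ h => ⟨pwin_pos hA h1 h.lo h.win, pwin_le hA h1 h.lo h.win⟩)
    (fun k a ℓ h => (Bk_ge H k h).2.2) (sz_tendsto hA h1 (by omega)) (fun k => by positivity)
    (fun k => pow_le_one₀ (by norm_num) (by norm_num)) (fun k a ℓ h => good_step H k h) hs hs1 (mass_bound hA h1 hs hs1)
  refine hdim.trans (dimH_mono ?_)
  rintro x ⟨hx0, hx⟩
  have hxO : x ∈ Icc x₀ (x₀ + ρ / 2) := ⟨ha₀.trans hx0.1, hx0.2.trans hb₀⟩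
  refine ⟨hsub hxO, final_disc (κ := 3) (n₀ := K₀ ^ 6) (K₀ := K₀) (D₀ := 140000 + ((K₀ ^ 6 : ℕ) : ℝ)) (by omega) (by positivity) fun k => ?_⟩
  obtain ⟨a, ℓ, hg, hxa⟩ := hx k
  obtain ⟨Q₀, ε, P, -⟩ := H.ppar k
  have hWd : Wd (pw A₀ c (K₀ ^ 6)) x₀ (nk 3 (K₀ ^ 6) K₀ k) (nk 3 (K₀ ^ 6) K₀ k + Kk K₀ k ^ 4) a ℓ := pw_Wd P hg.lo hg.hi hg.win
  have hL := P.hL
  have hK1 := P.hK
  have h2 := good_disc P.h1 hWd P.hK P.hC (by omega) (nk_le' (by omega) H.h6 k) hg.nb hg.pot hxa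
  refine (disc_change (n₀ := K₀ ^ 6) h2 (t' := fun j => A₀ * x ^ (j + 1) + c j) ?_).mono ?_
  · intro j hj
    show A₀ * x ^ (j + 1) + c j = pw A₀ c (K₀ ^ 6) j x
    unfold pw
    rw [if_neg (by omega)]
  · have h3 : (1 : ℝ) ≤ (Kk K₀ k : ℝ) ^ 11 := one_le_pow₀ (by exact_mod_cast hK1)
    have h4 : (0 : ℝ) ≤ ((K₀ ^ 6 : ℕ) : ℝ) := Nat.cast_nonneg _
    have h5 : ((K₀ ^ 6 : ℕ) : ℝ) ≤ ((K₀ ^ 6 : ℕ) : ℝ) * (Kk K₀ k : ℝ) ^ 11 := le_mul_of_one_le_right h4 h3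
    show 140000 * (Kk K₀ k : ℝ) ^ 11 + ((K₀ ^ 6 : ℕ) : ℝ) ≤ (140000 + ((K₀ ^ 6 : ℕ) : ℝ)) * (Kk K₀ k : ℝ) ^ 11
    linarith

theorem dimH_le_one (s : Set ℝ) : dimH s ≤ 1 := by
  rw [← Real.dimH_univ]
  exact dimH_mono (subset_univ s)

/-- **powers: nearly optimal discrepancy on a set of full dimension** -/
theorem main' (hA : 0 < A₀) (c : ℕ → ℝ) {O : Set ℝ} (hO : IsOpen O) (hne : (O ∩ Ioi 1).Nonempty) :
    dimH {x | x ∈ O ∧ ∃ N₀ : ℕ, ∀ N ≥ N₀, DiscLe (fun j => A₀ * x ^ (j + 1) + c j) N (Real.log N ^ 12)} = 1 := by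
  refine le_antisymm (dimH_le_one _) ?_
  have h1 : Tendsto (fun m : ℕ => ENNReal.ofReal (1 - 1 / ((m : ℝ) + 2))) atTop (𝓝 1) := by
    have h2 : Tendsto (fun m : ℕ => 1 - 1 / ((m : ℝ) + 2)) atTop (𝓝 (1 - 0)) := by
      refine Tendsto.sub tendsto_const_nhds ?_
      have h3 : Tendsto (fun m : ℕ => (m : ℝ) + 2) atTop atTop :=
        tendsto_natCast_atTop_atTop.atTop_add tendsto_const_nhds
      have h5 := tendsto_inv_atTop_zero.comp h3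
      refine h5.congr fun m => ?_
      rw [Function.comp_apply, one_div]
    rw [sub_zero] at h2
    have h4 := (ENNReal.continuous_ofReal.tendsto 1).comp h2
    rwa [ENNReal.ofReal_one] at h4
  refine le_of_tendsto h1 (Eventually.of_forall fun m => ?_)
  refine main_ge hA c hO hne ?_ ?_
  · have : (1 : ℝ) / ((m : ℝ) + 2) < 1 := by
      rw [div_lt_one (by positivity)]
      have : (0 : ℝ) ≤ m := Nat.cast_nonneg m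
      linarith
    linarith
  · have : (0 : ℝ) < 1 / ((m : ℝ) + 2) := by positivity
    linarith

end Pool.Agent.Helper41.LD2
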