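import Pool.Agent.Helper41.LD.Fin
import Pool.Agent.Helper41.LD2.Defs

/-!
# Project LD2: growth of the parameters
-/

set_option autoImplicit false

namespace Pool.Agent.Helper41.LD2

open Set Filter Topology
open Pool.Agent.Helper41.LD (Kk Kk_mono Kk_succ Kk_ge k_lt Kk_log Kk_tendsto nk nk_succ nk_mono nk_ge ev_pow ev_real pow_eq_exp
  ev_ratio DiscLe DiscLe.mono)

theorem nk_le' {κ n₀ K₀ : ℕ} (hK₀ : 1 ≤ K₀) (hn : n₀ ≤ 2 ^ K₀) (k : ℕ) :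
    nk κ n₀ K₀ k ≤ 2 ^ (Kk K₀ k + 1) * Kk K₀ k ^ (κ + 1) := by
  have h1 : ∑ j ∈ Finset.range k, Kk K₀ j ^ (κ + 1) ≤ k * Kk K₀ k ^ (κ + 1) := by
    calc ∑ j ∈ Finset.range k, Kk K₀ j ^ (κ + 1) ≤ ∑ _j ∈ Finset.range k, Kk K₀ k ^ (κ + 1) :=
          Finset.sum_le_sum fun j hj => Nat.pow_le_pow_left (Kk_mono K₀ (Finset.mem_range.1 hj).le) _
      _ = _ := by simp
  have h2 : k ≤ 2 ^ Kk K₀ k := by
    have h3 : k + 1 ≤ 2 ^ Kk K₀ k := by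
      refine (k_lt K₀ k).le.trans (Nat.pow_le_pow_right (by norm_num) ?_)
      have := Kk_ge K₀ k
      omega
    omega
  have hK1 : 1 ≤ Kk K₀ k ^ (κ + 1) := Nat.one_le_pow _ _ (hK₀.trans (Kk_ge K₀ k))
  have h3 : n₀ ≤ 2 ^ Kk K₀ k * Kk K₀ k ^ (κ + 1) := by
    calc n₀ ≤ 2 ^ K₀ * 1 := by rw [mul_one]; exact hn
      _ ≤ 2 ^ Kk K₀ k * Kk K₀ k ^ (κ + 1) := Nat.mul_le_mul (Nat.pow_le_pow_right (by norm_num) (Kk_ge K₀ k)) hK1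
  have h4 : k * Kk K₀ k ^ (κ + 1) ≤ 2 ^ Kk K₀ k * Kk K₀ k ^ (κ + 1) := Nat.mul_le_mul_right _ h2
  have e : 2 ^ (Kk K₀ k + 1) * Kk K₀ k ^ (κ + 1) = 2 ^ Kk K₀ k * Kk K₀ k ^ (κ + 1) + 2 ^ Kk K₀ k * Kk K₀ k ^ (κ + 1) := by
    rw [pow_succ]; ring
  rw [e]
  unfold nk
  omega

/-- the times are larger than the fifth power of the level -/
theorem ev_nk : ∀ᶠ K₀ : ℕ in atTop, ∀ k, Kk K₀ k ^ 5 ≤ nk 3 (K₀ ^ 6) K₀ k := by
  have h1 : ∀ᶠ K : ℕ in atTop, ∀ l, K ≤ l → 64 * (l : ℝ) ^ 5 ≤ 2 ^ l := by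
    obtain ⟨K₁, hK₁⟩ := eventually_atTop.1 (ev_pow 5 64)
    filter_upwards [eventually_ge_atTop K₁] with K hK l hl
    exact hK₁ l (hK.trans hl)
  filter_upwards [h1, eventually_ge_atTop 32] with K₀ h2 h3 k
  rcases le_total (Nat.log 2 (k + 1)) K₀ with h | h
  · have h4 : Kk K₀ k ≤ 2 * K₀ := by unfold Kk; omega
    calc Kk K₀ k ^ 5 ≤ (2 * K₀) ^ 5 := Nat.pow_le_pow_left h4 5
      _ = 32 * K₀ ^ 5 := by ring
      _ ≤ K₀ * K₀ ^ 5 := Nat.mul_le_mul_right _ h3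
      _ = K₀ ^ 6 := by ring
      _ ≤ _ := by unfold nk; omega
  · set l := Nat.log 2 (k + 1) with hl
    have h4 : Kk K₀ k ≤ 2 * l := by unfold Kk; omega
    have h5 : 64 * l ^ 5 ≤ 2 ^ l := by exact_mod_cast h2 l h
    have h6 : 2 ^ l ≤ k + 1 := Nat.pow_log_le_self 2 (by omega)
    have h7 : 1 ≤ l ^ 5 := Nat.one_le_pow _ _ (by omega)
    calc Kk K₀ k ^ 5 ≤ (2 * l) ^ 5 := Nat.pow_le_pow_left h4 5
      _ = 32 * l ^ 5 := by ring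
      _ ≤ k := by omega
      _ ≤ _ := nk_ge 3 (K₀ ^ 6) (by omega) k

theorem ev_six : ∀ᶠ K₀ : ℕ in atTop, K₀ ^ 6 ≤ 2 ^ K₀ := by
  filter_upwards [ev_pow 6 1] with K h
  rw [one_mul] at h
  exact_mod_cast h

theorem ev_bigp : ∀ᶠ K : ℕ in atTop, 8192 * K * K ^ 4 ≤ 2 ^ K ∧ 2 ≤ K := by
  filter_upwards [ev_pow 5 8192, eventually_ge_atTop 2] with K h1 h2
  refine ⟨?_, h2⟩
  have e : (8192 * (K : ℝ) ^ 5) = ((8192 * K * K ^ 4 : ℕ) : ℝ) := by push_cast; ring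
  rw [e] at h1
  exact_mod_cast h1

/-- the parameters are admissible -/
theorem ev_ppar {A₀ x₁ x₂ : ℝ} (hA : 0 < A₀) (h1 : 1 < x₁) (h12 : x₁ ≤ x₂) {R : ℕ} (hR1 : 1 ≤ R) (hR : (2 : ℝ) ^ 12 ≤ x₁ ^ R) {D : ℝ} (hD : 0 < D) :
    ∀ᶠ K : ℕ in atTop, ∀ (Q₀ : ℕ) (ε : ℝ), (Q₀ : ℝ) + 1 ≤ Real.exp (D * (K : ℝ) ^ 3) → 0 ≤ ε → ε ≤ (1 / 2) ^ (12 * K) →
      ∀ n n₀ : ℕ, K ^ 5 ≤ n → n ≤ 2 ^ (K + 1) * K ^ 4 → n₀ ≤ n → PPar A₀ x₁ x₂ n₀ K n (K ^ 4) (R * K) Q₀ ε := by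
  have hx0 : 0 < x₁ := by linarith
  have hx20 : 0 < x₂ := by linarith
  have hlog : 0 < Real.log x₁ := Real.log_pos h1
  have hlog2 : 0 < Real.log x₂ := Real.log_pos (by linarith)
  filter_upwards [eventually_ge_atTop 1, ev_real (x₁ / (x₁ - 1)), eventually_ge_atTop (3 * R), eventually_ge_atTop (4 * R),
    ev_real (2 * D / Real.log x₁), ev_pow 4 4, eventually_ge_atTop 2,
    ev_real ((2 * Real.log x₂ + 24 + |Real.log A₀|) / Real.log x₁)] with K g1 g2 g3 g4 g5 g6 g7 g8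
  intro Q₀ ε hQ hε0 hε n n₀ hn5 hn hn₀
  have hKr : (1 : ℝ) ≤ K := by exact_mod_cast g1
  have hK2 : K * K ≤ K ^ 4 := by
    calc K * K = K ^ 2 := (sq K).symm
      _ ≤ K ^ 4 := Nat.pow_le_pow_right g1 (by omega)
  have h8 : 4 * K ^ 4 ≤ 2 ^ K := by exact_mod_cast g6
  have hRK : R * K ≤ K ^ 4 := (Nat.mul_le_mul_right K (by omega : R ≤ K)).trans hK2
  have hsum : n + K ^ 4 + R * K ≤ 2 ^ (2 * K) := by
    have h10 : (2 : ℕ) ^ (2 * K) = 2 ^ K * 2 ^ K := by rw [two_mul, pow_add]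
    have h11 : n ≤ 2 * 2 ^ K * K ^ 4 := by rw [pow_succ] at hn; linarith
    have h12 : 2 ^ 2 ≤ 2 ^ K := Nat.pow_le_pow_right (by norm_num) g7
    rw [h10]
    have h13 : 2 ^ K * (4 * K ^ 4) ≤ 2 ^ K * 2 ^ K := Nat.mul_le_mul_left _ h8
    have h14 : 2 * K ^ 4 ≤ 2 * 2 ^ K * K ^ 4 := by
      refine Nat.mul_le_mul_right _ ?_
      omega
    nlinarith
  refine ⟨hA, h1, h12, g1, g2, ?_, Nat.mul_pos hR1 g1, ?_, hsum, hn₀, ?_, hε0, hε, ?_⟩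
  · rw [pow_mul, pow_mul]
    exact pow_le_pow_left₀ (by positivity) hR K
  · calc 3 * (R * K) = (3 * R) * K := by ring
      _ ≤ K * K := Nat.mul_le_mul_right _ g3
      _ ≤ _ := hK2
  · have h9 : (K : ℝ) ^ 4 / 2 ≤ ((K ^ 4 - 2 * (R * K) : ℕ) : ℝ) := by
      have h11 : 2 * (2 * (R * K)) ≤ K ^ 4 := by
        calc 2 * (2 * (R * K)) = (4 * R) * K := by ring
          _ ≤ K * K := Nat.mul_le_mul_right _ g4
          _ ≤ _ := hK2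
      have h12 : 2 * ((2 * (R * K) : ℕ) : ℝ) ≤ (K : ℝ) ^ 4 := by exact_mod_cast h11
      rw [Nat.cast_sub (by omega)]
      push_cast at h12 ⊢
      linarith
    rw [pow_eq_exp hx0]
    refine hQ.trans (Real.exp_le_exp.2 ?_)
    rw [div_le_iff₀ hlog] at g5
    calc D * (K : ℝ) ^ 3 ≤ (K * Real.log x₁ / 2) * (K : ℝ) ^ 3 := mul_le_mul_of_nonneg_right (by linarith) (by positivity)
      _ = (K : ℝ) ^ 4 / 2 * Real.log x₁ := by ring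
      _ ≤ _ := mul_le_mul_of_nonneg_right h9 hlog.le
  · -- linearisation
    have e1 : ((n : ℝ) + ((K ^ 4 : ℕ) : ℝ) + ((R * K : ℕ) : ℝ) + 1) ≤ 2 ^ (3 * K) := by
      have e2 : n + K ^ 4 + R * K + 1 ≤ 2 ^ (3 * K) := by
        have e3 : (2 : ℕ) ^ (3 * K) = 2 ^ (2 * K) * 2 ^ K := by rw [← pow_add]; congr 1; ring
        have e4 : 2 ^ 1 ≤ 2 ^ K := Nat.pow_le_pow_right (by norm_num) g1
        have e5 : 1 ≤ 2 ^ (2 * K) := Nat.one_le_two_pow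
        rw [e3]
        nlinarith
      exact_mod_cast e2
    have e6 : 4 * ((n : ℝ) + ((K ^ 4 : ℕ) : ℝ) + ((R * K : ℕ) : ℝ) + 1) ^ 2 ≤ 2 ^ (8 * K) := by
      calc 4 * ((n : ℝ) + ((K ^ 4 : ℕ) : ℝ) + ((R * K : ℕ) : ℝ) + 1) ^ 2 ≤ 4 * (2 ^ (3 * K)) ^ 2 := by gcongr
        _ = 2 ^ 2 * 2 ^ (6 * K) := by rw [← pow_mul, show 3 * K * 2 = 6 * K by ring]; norm_num
        _ ≤ 2 ^ (2 * K) * 2 ^ (6 * K) := by
          refine mul_le_mul_of_nonneg_right (pow_le_pow_right₀ (by norm_num) (by omega)) (by positivity)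
        _ = 2 ^ (8 * K) := by rw [← pow_add]; congr 1; ring
    have e7 : x₂ ^ (K ^ 4 + R * K) ≤ x₂ ^ (2 * K ^ 4) := pow_le_pow_right₀ (by linarith) (by omega)
    have e8 : x₁ ^ (K ^ 5) ≤ x₁ ^ n := pow_le_pow_right₀ h1.le hn5
    have e9 : 2 ^ (8 * K) * x₂ ^ (2 * K ^ 4) * 2 ^ (16 * K) ≤ A₀ * x₁ ^ (K ^ 5) := by
      have f1 : (2 : ℝ) ^ (8 * K) * x₂ ^ (2 * K ^ 4) * 2 ^ (16 * K) =
          Real.exp (24 * K * Real.log 2 + 2 * (K : ℝ) ^ 4 * Real.log x₂) := by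
        have f2 : (2 : ℝ) ^ (8 * K) * x₂ ^ (2 * K ^ 4) * 2 ^ (16 * K) = 2 ^ (24 * K) * x₂ ^ (2 * K ^ 4) := by
          rw [show 24 * K = 8 * K + 16 * K by ring, pow_add]; ring
        rw [f2, pow_eq_exp (show (0 : ℝ) < 2 by norm_num), pow_eq_exp hx20, ← Real.exp_add]
        congr 1
        push_cast
        ring
      have f3 : A₀ * x₁ ^ (K ^ 5) = Real.exp (Real.log A₀ + (K : ℝ) ^ 5 * Real.log x₁) := by
        rw [Real.exp_add, Real.exp_log hA, pow_eq_exp hx0]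
        push_cast
        ring
      rw [f1, f3, Real.exp_le_exp]
      rw [div_le_iff₀ hlog] at g8
      have f4 : Real.log 2 ≤ 1 := by have := Real.log_two_lt_d9; linarith
      have f5 : (1 : ℝ) ≤ (K : ℝ) ^ 4 := one_le_pow₀ hKr
      have f6 : (K : ℝ) ≤ (K : ℝ) ^ 4 := by
        calc (K : ℝ) = (K : ℝ) ^ 1 := (pow_one _).symm
          _ ≤ (K : ℝ) ^ 4 := pow_le_pow_right₀ hKr (by norm_num)
      have f7 : (K : ℝ) ^ 4 * (2 * Real.log x₂ + 24 + |Real.log A₀|) ≤ (K : ℝ) ^ 4 * (K * Real.log x₁) :=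
        mul_le_mul_of_nonneg_left g8 (by positivity)
      have f8 : 24 * (K : ℝ) * Real.log 2 ≤ 24 * (K : ℝ) ^ 4 := by
        calc 24 * (K : ℝ) * Real.log 2 ≤ 24 * (K : ℝ) * 1 := by gcongr
          _ ≤ 24 * (K : ℝ) ^ 4 := by linarith
      have f9 : -Real.log A₀ ≤ (K : ℝ) ^ 4 * |Real.log A₀| := by
        calc -Real.log A₀ ≤ |Real.log A₀| := neg_le_abs _
          _ ≤ (K : ℝ) ^ 4 * |Real.log A₀| := le_mul_of_one_le_left (abs_nonneg _) f5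
      have f10 : (K : ℝ) ^ 5 = (K : ℝ) ^ 4 * K := by ring
      rw [f10]
      nlinarith
    calc 4 * ((n : ℝ) + ((K ^ 4 : ℕ) : ℝ) + ((R * K : ℕ) : ℝ) + 1) ^ 2 * x₂ ^ (K ^ 4 + R * K) * 2 ^ (16 * K)
        ≤ 2 ^ (8 * K) * x₂ ^ (2 * K ^ 4) * 2 ^ (16 * K) := by gcongr
      _ ≤ A₀ * x₁ ^ (K ^ 5) := e9
      _ ≤ A₀ * x₁ ^ n := mul_le_mul_of_nonneg_left e8 hA.le

end Pool.Agent.Helper41.LD2
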